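import Pool.Agent.H86.OG.FewAsm
import Pool.Agent.H35.FS.Max
import Pool.Agent.H35.FC.Gf
import Pool.Agent.H35.FC.Tree

/-!
# Finite maximal codes with few words

Let `C` be a finite maximal code over a finite alphabet. Give the letters `x` integer values
`t x ≥ τ ≥ 1` with sum `T ≥ 2`. Then `C` is factorizing and commutatively equivalent to a prefix
code, or the integer `(∑ t(c) - 1) / (T - 1)` is a product `u v` with `u ≥ τ + 1` and
`v ≥ τ T + 1`. In particular the first case holds if `C` has at most `2 (k² - 1)` words, `k ≥ 2`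
letters.
-/

set_option autoImplicit false

namespace Pool.Agent.Results.MP_872190_lc.FewWords

/-- `C ⊆ A⁺` is a code: words have at most one factorization into words of `C`. -/
def IsCode {α : Type} (C : Set (List α)) : Prop :=
  [] ∉ C ∧ ∀ L M : List (List α), (∀ c ∈ L, c ∈ C) → (∀ c ∈ M, c ∈ C) →
    L.flatten = M.flatten → L = M

/-- `C` is a maximal code over the alphabet `α`. -/
def IsMaximalCode {α : Type} (C : Set (List α)) : Prop :=
  IsCode C ∧ ∀ D : Set (List α), IsCode D → C ⊆ D → D = C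

/-- The submonoid `C*` generated by `C`. -/
def Star {α : Type} (C : Set (List α)) : Set (List α) :=
  {w | ∃ L : List (List α), (∀ c ∈ L, c ∈ C) ∧ L.flatten = w}

/-- `C` is factorizing: for some finite sets `S`, `P` each word is in exactly one way the
concatenation of a word of `S`, a word of `C*` and a word of `P`. -/
def IsFactorizing {α : Type} (C : Set (List α)) : Prop :=
  ∃ S P : Set (List α), S.Finite ∧ P.Finite ∧ ∀ w : List α, ∃! t : List α × List α × List α,
    t.1 ∈ S ∧ t.2.1 ∈ Star C ∧ t.2.2 ∈ P ∧ t.1 ++ (t.2.1 ++ t.2.2) = w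

/-- `D ⊆ A⁺` is a prefix code: no word of `D` is a proper left factor of another one. -/
def IsPrefixCode {α : Type} (D : Set (List α)) : Prop :=
  [] ∉ D ∧ ∀ u ∈ D, ∀ v ∈ D, u <+: v → u = v

/-- The finite sets `X`, `Y` have the same commutative image as multisets. -/
def CommutativelyEquivalent {α : Type} [DecidableEq α] (X Y : Finset (List α)) : Prop :=
  ∃ f : List α → List α, Set.BijOn f X Y ∧ ∀ w ∈ X, ∀ x : α, (f w).count x = w.count x

/-- `C` is commutatively equivalent to a prefix code. -/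
def IsCommutativelyPrefix {α : Type} [DecidableEq α] (C : Finset (List α)) : Prop :=
  ∃ D : Finset (List α), IsPrefixCode (D : Set (List α)) ∧ CommutativelyEquivalent C D

private theorem main {α : Type} [Fintype α] [DecidableEq α] (C : Finset (List α))
    (hC : IsMaximalCode (C : Set (List α))) (t : α → ℕ) (τ : ℕ) (hτ : 1 ≤ τ) (ht : ∀ x, τ ≤ t x)
    (hT : 2 ≤ ∑ x, t x) :
    (IsFactorizing (C : Set (List α)) ∧ IsCommutativelyPrefix C) ∨
    ∃ u v : ℕ, τ + 1 ≤ u ∧ τ * (∑ x, t x) + 1 ≤ v ∧
      ∑ c ∈ C, (c.map t).prod = 1 + ((∑ x, t x) - 1) * (u * v) := by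
  rcases H86.OG.fewG H86.OG.tilP H35.FS.maxP H35.FC.gfP H35.FC.treeP C hC.1 hC.2 t τ hτ ht hT with
    ⟨⟨S, P, hS, hP, hT⟩, D, hD, F, hF, hperm⟩ | h
  · exact Or.inl ⟨⟨S, P, hS, hP, fun w => (hT w).2 (Set.notMem_empty w)⟩, D, hD, F, hF,
      fun w hw x => (hperm w hw).count_eq x⟩
  · exact Or.inr h

/-- A finite maximal code is factorizing and commutatively equivalent to a prefix code, or for all
integers `t x ≥ τ ≥ 1` with sum `T ≥ 2` the integer `(∑ t(c) - 1) / (T - 1)` is a product `u v`
with `u ≥ τ + 1`, `v ≥ τ T + 1`. The first holds if `C` has at most `2 (k² - 1)` words, or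
`1 + (k - 1) p` words with `p` prime, over `k ≥ 2` letters. -/
theorem result {α : Type} [Fintype α] [DecidableEq α] (C : Finset (List α))
    (hC : IsMaximalCode (C : Set (List α))) :
    ((IsFactorizing (C : Set (List α)) ∧ IsCommutativelyPrefix C) ∨
      ∀ (t : α → ℕ) (τ : ℕ), 1 ≤ τ → (∀ x, τ ≤ t x) → 2 ≤ ∑ x, t x →
        ∃ u v : ℕ, τ + 1 ≤ u ∧ τ * (∑ x, t x) + 1 ≤ v ∧
          ∑ c ∈ C, (c.map t).prod = 1 + ((∑ x, t x) - 1) * (u * v)) ∧
    (2 ≤ Fintype.card α → (C.card ≤ 2 * (Fintype.card α ^ 2 - 1) ∨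
        ∃ p : ℕ, p.Prime ∧ C.card = 1 + (Fintype.card α - 1) * p) →
      IsFactorizing (C : Set (List α)) ∧ IsCommutativelyPrefix C) := by
  refine ⟨?_, fun hk hc => ?_⟩
  · by_cases h : IsFactorizing (C : Set (List α)) ∧ IsCommutativelyPrefix C
    · exact Or.inl h
    · exact Or.inr fun t τ hτ ht hT => (main C hC t τ hτ ht hT).resolve_left h
  · rcases main C hC (fun _ => 1) 1 le_rfl (fun _ => le_rfl) (by simpa using hk) with
      h | ⟨u, v, hu, hv, he⟩
    · exact h
    exfalso
    have h1 : ∀ c : List α, (c.map (fun _ => 1)).prod = 1 := by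
      intro c
      induction c with
      | nil => rfl
      | cons x c ih => rw [List.map_cons, List.prod_cons, ih]
    simp only [h1, Finset.sum_const, smul_eq_mul, mul_one, one_mul, Finset.card_univ] at he hv
    obtain ⟨k, hk2⟩ : ∃ k, Fintype.card α = k + 1 := ⟨Fintype.card α - 1, by omega⟩
    rw [hk2] at he hv hc hk
    rw [Nat.add_sub_cancel] at he hc
    rcases hc with hc | ⟨p, hp, hc⟩
    · have h2 : 2 * (k + 2) ≤ u * v := Nat.mul_le_mul hu hv
      have h3 : k * (2 * (k + 2)) ≤ k * (u * v) := Nat.mul_le_mul_left k h2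
      have h4 : 2 * ((k + 1) ^ 2 - 1) = k * (2 * (k + 2)) := by
        have : (k + 1) ^ 2 - 1 = k * (k + 2) := by
          have : (k + 1) ^ 2 = k * (k + 2) + 1 := by ring
          omega
        rw [this]
        ring
      omega
    · have h2 : k * (u * v) = k * p := by omega
      have h3 : u * v = p := Nat.eq_of_mul_eq_mul_left (by omega) h2
      rw [← h3] at hp
      rcases (Nat.prime_mul_iff.1 hp) with ⟨-, h⟩ | ⟨-, h⟩
      · omega
      · omega

end Pool.Agent.Results.MP_872190_lc.FewWords
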