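import Pool.Agent.H86.OG.Til
import Pool.Agent.H49.OP.Prime
import Pool.Agent.H35.FS.Max
import Pool.Agent.H35.FS.Deg
import Pool.Agent.H35.FC.Gf
import Pool.Agent.H35.FC.Tree
import Pool.Agent.H47.ML.Four
import Pool.Agent.H35.TY.Fin
import Pool.Agent.H35.FF.Main

/-!
# Finite maximal codes which are not factorizing

Let `C` be a finite maximal code over a finite alphabet, and let `c`, `s` be the commutative images
of `C` and of the alphabet. Then `C` is factorizing and commutatively equivalent to a prefix code,
or `(1 - c) / (1 - s)` is a product of two polynomials with integer coefficients which in every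
letter have degree at least one each and at least three together. The second case does not occur if
some letter occurs at most three times in each word of `C`, or if some letter `y` occurs at most `n`
times in each word of `C` and `y^n ∈ C`, where `n` is prime or `n = 4`.
-/

set_option autoImplicit false

namespace Pool.Agent.Results.MP_872190_lc.MissingLetter

/-- `C ⊆ A⁺` is a code: words have at most one factorization into words of `C`. -/
def IsCode {α : Type} (C : Set (List α)) : Prop :=
  [] ∉ C ∧ ∀ L M : List (List α), (∀ c ∈ L, c ∈ C) → (∀ c ∈ M, c ∈ C) →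
    L.flatten = M.flatten → L = M

/-- `C` is a maximal code over the alphabet `α`. -/
def IsMaximalCode {α : Type} (C : Set (List α)) : Prop :=
  IsCode C ∧ ∀ D : Set (List α), IsCode D → C ⊆ D → D = C

/-- The submonoid `C*` generated by `C`. -/
def Star {α : Type} (C : Set (List α)) : Set (List α) :=
  {w | ∃ L : List (List α), (∀ c ∈ L, c ∈ C) ∧ L.flatten = w}

/-- `C` is factorizing: for some finite sets `S`, `P` each word is in exactly one way the
concatenation of a word of `S`, a word of `C*` and a word of `P`. -/
def IsFactorizing {α : Type} (C : Set (List α)) : Prop :=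
  ∃ S P : Set (List α), S.Finite ∧ P.Finite ∧ ∀ w : List α, ∃! t : List α × List α × List α,
    t.1 ∈ S ∧ t.2.1 ∈ Star C ∧ t.2.2 ∈ P ∧ t.1 ++ (t.2.1 ++ t.2.2) = w

/-- `D ⊆ A⁺` is a prefix code: no word of `D` is a proper left factor of another one. -/
def IsPrefixCode {α : Type} (D : Set (List α)) : Prop :=
  [] ∉ D ∧ ∀ u ∈ D, ∀ v ∈ D, u <+: v → u = v

/-- The finite sets `X`, `Y` have the same commutative image as multisets. -/
def CommutativelyEquivalent {α : Type} [DecidableEq α] (X Y : Finset (List α)) : Prop :=
  ∃ f : List α → List α, Set.BijOn f X Y ∧ ∀ w ∈ X, ∀ x : α, (f w).count x = w.count x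

/-- `C` is commutatively equivalent to a prefix code. -/
def IsCommutativelyPrefix {α : Type} [DecidableEq α] (C : Finset (List α)) : Prop :=
  ∃ D : Finset (List α), IsPrefixCode (D : Set (List α)) ∧ CommutativelyEquivalent C D

/-- The commutative image of `C`, a polynomial in commuting variables. -/
noncomputable def commImage {α : Type} (C : Finset (List α)) : MvPolynomial α ℤ :=
  ∑ w ∈ C, (w.map MvPolynomial.X).prod

private theorem main {α : Type} [Fintype α] [DecidableEq α] (C : Finset (List α))
    (hC : IsMaximalCode (C : Set (List α)))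
    (hI : ∀ F G : MvPolynomial α ℤ,
      1 - commImage C = (1 - ∑ x : α, (MvPolynomial.X x : MvPolynomial α ℤ)) * (F * G) →
      ∃ y, MvPolynomial.degreeOf y F = 0 ∨ MvPolynomial.degreeOf y G = 0) :
    IsFactorizing (C : Set (List α)) ∧ IsCommutativelyPrefix C := by
  obtain ⟨⟨S, P, hS, hP, hT⟩, D, hD, F, hF, hperm⟩ := H86.OG.assembly H86.OG.tilP H35.FS.maxP
    H35.FC.gfP H35.FC.treeP (H35.FS.degP H35.FC.gfP) C hC.1 hC.2 hI
  exact ⟨⟨S, P, hS, hP, fun w => (hT w).2 (Set.notMem_empty w)⟩, D, hD, F, hF,
    fun w hw x => (hperm w hw).count_eq x⟩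

private theorem three {α : Type} [Fintype α] [DecidableEq α] (C : Finset (List α))
    (hC : IsMaximalCode (C : Set (List α))) (y : α) (h3 : ∀ w ∈ C, w.count y ≤ 3) :
    IsFactorizing (C : Set (List α)) ∧ IsCommutativelyPrefix C := by
  obtain ⟨⟨S, P, hS, hP, hT⟩, D, hD, F, hF, hperm⟩ := H35.TY.three C hC.1 hC.2 h3
  exact ⟨⟨S, P, hS, hP, fun w => (hT w).2 (Set.notMem_empty w)⟩, D, hD, F, hF,
    fun w hw x => (hperm w hw).count_eq x⟩

private theorem four {α : Type} [Fintype α] [DecidableEq α] (C : Finset (List α))
    (hC : IsMaximalCode (C : Set (List α))) (y : α) (hy : List.replicate 4 y ∈ C)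
    (h4 : ∀ w ∈ C, w.count y ≤ 4) :
    IsFactorizing (C : Set (List α)) ∧ IsCommutativelyPrefix C := by
  obtain ⟨⟨S, P, hS, hP, hT⟩, D, hD, F, hF, hperm⟩ := H35.FF.four C hC.1 hC.2 hy h4
  exact ⟨⟨S, P, hS, hP, fun w => (hT w).2 (Set.notMem_empty w)⟩, D, hD, F, hF,
    fun w hw x => (hperm w hw).count_eq x⟩

/-- A finite maximal code is factorizing and commutatively equivalent to a prefix code, or
`(1 - c) / (1 - s)` is a product of two polynomials which in every letter have degree at least one
each and at least three together. The second case does not occur for two explicit families. -/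
theorem result {α : Type} [Fintype α] [DecidableEq α] (C : Finset (List α))
    (hC : IsMaximalCode (C : Set (List α))) :
    ((IsFactorizing (C : Set (List α)) ∧ IsCommutativelyPrefix C) ∨
      ∃ F G : MvPolynomial α ℤ,
        1 - commImage C = (1 - ∑ x : α, (MvPolynomial.X x : MvPolynomial α ℤ)) * (F * G) ∧
        ∀ x : α, 1 ≤ MvPolynomial.degreeOf x F ∧ 1 ≤ MvPolynomial.degreeOf x G ∧
          3 ≤ MvPolynomial.degreeOf x F + MvPolynomial.degreeOf x G) ∧
    ∀ y : α, ((∀ w ∈ C, w.count y ≤ 3) ∨
        ∃ n : ℕ, (n.Prime ∨ n = 4) ∧ List.replicate n y ∈ C ∧ ∀ w ∈ C, w.count y ≤ n) →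
      IsFactorizing (C : Set (List α)) ∧ IsCommutativelyPrefix C := by
  refine ⟨?_, fun y hy => ?_⟩
  · by_cases h : IsFactorizing (C : Set (List α)) ∧ IsCommutativelyPrefix C
    · exact Or.inl h
    · right
      by_contra hcon
      refine h (main C hC fun F G hFG => ?_)
      by_contra hy
      push Not at hy
      refine hcon ⟨F, G, hFG, fun x => ⟨Nat.pos_of_ne_zero (hy x).1,
        Nat.pos_of_ne_zero (hy x).2, ?_⟩⟩
      by_contra h3
      exact h (three C hC x (H47.ML.count_le_three F G hFG (by omega)))
  · rcases hy with h3 | ⟨n, hn | rfl, hyn, hle⟩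
    · exact three C hC y h3
    · exact main C hC fun F G hFG => ⟨y, H49.OP.prime_missing hC.1 hn hyn hle F G hFG⟩
    · exact four C hC y hyn hle

end Pool.Agent.Results.MP_872190_lc.MissingLetter
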