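import Pool.Agent.H49.S8.Top

/-!
# Finite maximal codes with short words

Let `C` be a finite maximal code over a finite alphabet, and let `c`, `s` be the commutative images
of `C` and of the alphabet. Then `C` is commutatively equivalent to a prefix code, or
`(1 - c) / (1 - s)` is a product of two polynomials with integer coefficients, of total degree at
least three each and at least eight together. The first holds if the words of `C` have length at
most eight.
-/

set_option autoImplicit false

namespace Pool.Agent.Results.MP_872190_lc.ShortWords

/-- `C ⊆ A⁺` is a code: words have at most one factorization into words of `C`. -/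
def IsCode {α : Type} (C : Set (List α)) : Prop :=
  [] ∉ C ∧ ∀ L M : List (List α), (∀ c ∈ L, c ∈ C) → (∀ c ∈ M, c ∈ C) →
    L.flatten = M.flatten → L = M

/-- `C` is a maximal code over the alphabet `α`. -/
def IsMaximalCode {α : Type} (C : Set (List α)) : Prop :=
  IsCode C ∧ ∀ D : Set (List α), IsCode D → C ⊆ D → D = C

/-- `D ⊆ A⁺` is a prefix code: no word of `D` is a proper left factor of another one. -/
def IsPrefixCode {α : Type} (D : Set (List α)) : Prop :=
  [] ∉ D ∧ ∀ u ∈ D, ∀ v ∈ D, u <+: v → u = v

/-- The finite sets `X`, `Y` have the same commutative image as multisets. -/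
def CommutativelyEquivalent {α : Type} [DecidableEq α] (X Y : Finset (List α)) : Prop :=
  ∃ f : List α → List α, Set.BijOn f X Y ∧ ∀ w ∈ X, ∀ x : α, (f w).count x = w.count x

/-- `C` is commutatively equivalent to a prefix code. -/
def IsCommutativelyPrefix {α : Type} [DecidableEq α] (C : Finset (List α)) : Prop :=
  ∃ D : Finset (List α), IsPrefixCode (D : Set (List α)) ∧ CommutativelyEquivalent C D

/-- The commutative image of `C`, a polynomial in commuting variables. -/
noncomputable def commImage {α : Type} (C : Finset (List α)) : MvPolynomial α ℤ :=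
  ∑ w ∈ C, (w.map MvPolynomial.X).prod

/-- A finite maximal code is commutatively equivalent to a prefix code, or `(1 - c) / (1 - s)` is a
product of two polynomials of degree at least three each and eight together. The first holds if all
words have length at most eight. -/
theorem result {α : Type} [Fintype α] [DecidableEq α] (C : Finset (List α))
    (hC : IsMaximalCode (C : Set (List α))) :
    (IsCommutativelyPrefix C ∨
      ∃ F G : MvPolynomial α ℤ,
        1 - commImage C = (1 - ∑ x : α, (MvPolynomial.X x : MvPolynomial α ℤ)) * (F * G) ∧
        3 ≤ F.totalDegree ∧ 3 ≤ G.totalDegree ∧ 8 ≤ F.totalDegree + G.totalDegree) ∧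
    ((∀ w ∈ C, w.length ≤ 8) → IsCommutativelyPrefix C) := by
  rcases H49.S8.short C hC.1 hC.2 with ⟨D, hD, F, hF, hperm⟩ | ⟨F, G, hF0, hG0, hFG, h3, h4, hs⟩
  · have h : IsCommutativelyPrefix C := ⟨D, hD, F, hF, fun w hw x => (hperm w hw).count_eq x⟩
    exact ⟨Or.inl h, fun _ => h⟩
  · refine ⟨Or.inr ⟨F, G, hFG, h3, h4, hs⟩, fun hw => ?_⟩
    exfalso
    have hle := H49.S8.degree_le_any8 hw hF0 hG0 hFG h3
    omega

end Pool.Agent.Results.MP_872190_lc.ShortWords
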