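import Pool.Agent.H72.SX.Asm
import Pool.Agent.H35.FS.Max
import Pool.Agent.H35.FS.Deg
import Pool.Agent.H35.FC.Gf
import Pool.Agent.H35.FC.Tree

/-!
# Finite maximal codes of small weight

Let `C` be a finite maximal code over a finite alphabet, let `ω` be a weight on the
letters, at least `m ≥ 1` except that letters in `C` may have weight zero, and let `y` be a letter.
If every word of `C` has weight less than `3 (m + ω y)`, then `C` is commutatively equivalent to a
prefix code. With weight one on the letters which are not in `C`, and zero on the other ones: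
every word of `C` has at most five letters which are not in `C`. With `ω y` large: `y` occurs at
most three times in each word, and words with three `y` have at most two other letters not in `C`.
-/

set_option autoImplicit false

namespace Pool.Agent.Results.MP_872190_lc.SmallWeight

/-- `C ⊆ A⁺` is a code: words have at most one factorization into words of `C`. -/
def IsCode {α : Type} (C : Set (List α)) : Prop :=
  [] ∉ C ∧ ∀ L M : List (List α), (∀ c ∈ L, c ∈ C) → (∀ c ∈ M, c ∈ C) →
    L.flatten = M.flatten → L = M

/-- `C` is a maximal code over the alphabet `α`. -/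
def IsMaximalCode {α : Type} (C : Set (List α)) : Prop :=
  IsCode C ∧ ∀ D : Set (List α), IsCode D → C ⊆ D → D = C

/-- `D ⊆ A⁺` is a prefix code: no word of `D` is a proper left factor of another one. -/
def IsPrefixCode {α : Type} (D : Set (List α)) : Prop :=
  [] ∉ D ∧ ∀ u ∈ D, ∀ v ∈ D, u <+: v → u = v

/-- The finite sets `X`, `Y` have the same commutative image as multisets. -/
def CommutativelyEquivalent {α : Type} [DecidableEq α] (X Y : Finset (List α)) : Prop :=
  ∃ f : List α → List α, Set.BijOn f X Y ∧ ∀ w ∈ X, ∀ x : α, (f w).count x = w.count x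

/-- A finite maximal code whose words have weight less than `3 (m + ω y)` is
commutatively equivalent to a prefix code. -/
theorem result {α : Type} [Fintype α] [DecidableEq α] (C : Finset (List α))
    (hC : IsMaximalCode (C : Set (List α)))
    (ω : α → ℕ) (m : ℕ) (hm : 1 ≤ m) (hω : ∀ x : α, m ≤ ω x ∨ (ω x = 0 ∧ [x] ∈ C)) (y : α)
    (h : ∀ w ∈ C, (w.map ω).sum < 3 * (m + ω y)) :
    ∃ D : Finset (List α), IsPrefixCode (D : Set (List α)) ∧ CommutativelyEquivalent C D := by
  obtain ⟨D, hD, F, hF, hperm⟩ := H72.SX.assembly H35.FS.maxP H35.FC.gfP H35.FC.treeP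
    (H35.FS.degP H35.FC.gfP) C hC.1 hC.2 ω m hm hω y h
  exact ⟨D, hD, F, hF, fun w hw x => (hperm w hw).count_eq x⟩

end Pool.Agent.Results.MP_872190_lc.SmallWeight
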